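import Pool.Agent.H4.FD.Conj
import Pool.Agent.H4.Loop.Abel
import Pool.Agent.H53.AL.Claim

/-!
MP_52f71e_al: helper85's claim for the multiplication group of a simple nonassociative automorphic
loop, and the products of two conjugates of `J` have odd order if `J` has no fixed point but `e`.
-/

set_option autoImplicit false

namespace ALoop

open Equiv

variable {Q : Type*} {G : Subgroup (Perm Q)} {L : Q → Perm Q} {J : Perm Q} {e : Q}

/-- the group `G ∪ GJ` -/
def GJ (h : AL G L J e) : Subgroup (Perm Q) where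
  carrier := {g | g ∈ G ∨ g * J ∈ G}
  one_mem' := Or.inl G.one_mem
  mul_mem' := by
    have hJJ := h.JJ1
    rintro a b (ha | ha) (hb | hb)
    · exact Or.inl (G.mul_mem ha hb)
    · right
      have : a * b * J = a * (b * J) := by group
      rw [this]
      exact G.mul_mem ha hb
    · right
      have h1 := G.mul_mem ha (h.JG b hb)
      have : a * b * J = a * J * (J * b * J) := by
        calc a * b * J = a * 1 * b * J := by group
          _ = a * (J * J) * b * J := by rw [hJJ]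
          _ = _ := by group
      rwa [this]
    · left
      have h1 := G.mul_mem ha (h.JG _ hb)
      have : a * b = a * J * (J * (b * J) * J) := by
        calc a * b = a * 1 * b * 1 := by group
          _ = a * (J * J) * b * (J * J) := by rw [hJJ]
          _ = _ := by group
      rwa [this]
  inv_mem' := by
    have hJJ := h.JJ1
    rintro a (ha | ha)
    · exact Or.inl (G.inv_mem ha)
    · right
      have h1 := h.JG _ (G.inv_mem ha)
      have : a⁻¹ * J = J * (a * J)⁻¹ * J := by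
        rw [mul_inv_rev, h.Jinv]
        calc a⁻¹ * J = 1 * a⁻¹ * J := by group
          _ = (J * J) * a⁻¹ * J := by rw [hJJ]
          _ = _ := by group
      rwa [this]

theorem mem_GJ (h : AL G L J e) {g : Perm Q} : g ∈ GJ h ↔ g ∈ G ∨ g * J ∈ G := Iff.rfl

namespace AL

theorem D_conjGJ (h : AL G L J e) {g : Perm Q} (hg : g ∈ GJ h) (q : Q) :
    g * D L J q * g⁻¹ = D L J (g q) := by
  rcases hg with hg | hg
  · exact h.D_conj hg q
  · have h1 := h.D_conj hg (J q)
    rw [← h.D_J] at h1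
    have hJJ := h.JJ1
    have h2 : (g * J) (J q) = g q := by
      show g (J (J q)) = g q
      rw [h.JJ]
    rw [h2, mul_inv_rev, h.Jinv] at h1
    rw [← h1]
    calc g * D L J q * g⁻¹ = g * 1 * D L J q * 1 * g⁻¹ := by group
      _ = g * (J * J) * D L J q * (J * J) * g⁻¹ := by rw [hJJ]
      _ = _ := by group

theorem D_mem (h : AL G L J e) (q : Q) : D L J q ∈ GJ h := by
  right
  have h1 := G.mul_mem (h.memL q) (h.JG _ (G.inv_mem (h.memL q)))
  have : D L J q * J = L q * (J * (L q)⁻¹ * J) := by unfold D; group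
  rwa [this]

/-- no normal `p`-subgroup -/
theorem no_pgroup [Finite Q] (h : AL G L J e) (hna : ¬ Assoc L) {p : ℕ} [Fact p.Prime]
    {N : Subgroup (Perm Q)} (hNG : N ≤ G) (hN : Nm G N) (hp : IsPGroup p N) : N = ⊥ := by
  by_contra hne
  haveI : Nontrivial N := (Subgroup.nontrivial_iff_ne_bot N).2 hne
  have hc := hp.center_nontrivial
  let Zs : Subgroup (Perm Q) := (Subgroup.center N).map N.subtype
  have hZ1 : ∀ z : Perm Q, z ∈ Zs ↔ z ∈ N ∧ ∀ n ∈ N, n * z = z * n := by
    intro z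
    constructor
    · rintro ⟨y, hy, rfl⟩
      refine ⟨y.2, fun n hn => ?_⟩
      have := Subgroup.mem_center_iff.1 hy ⟨n, hn⟩
      exact congrArg Subtype.val this
    · rintro ⟨hz, hz2⟩
      refine ⟨⟨z, hz⟩, ?_, rfl⟩
      rw [SetLike.mem_coe, Subgroup.mem_center_iff]
      rintro ⟨n, hn⟩
      exact Subtype.ext (hz2 n hn)
  have hZne : Zs ≠ ⊥ := by
    intro hb
    obtain ⟨⟨⟨y, hy⟩, hyc⟩, hy1⟩ := exists_ne (1 : Subgroup.center N)
    apply hy1
    have h1 : y ∈ Zs := ⟨⟨y, hy⟩, hyc, rfl⟩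
    rw [hb, Subgroup.mem_bot] at h1
    subst h1
    rfl
  have hZG : Zs ≤ G := fun z hz => hNG ((hZ1 z).1 hz).1
  have hZN : Nm G Zs := by
    intro g hg z hz
    rw [hZ1] at hz ⊢
    refine ⟨hN g hg z hz.1, fun n hn => ?_⟩
    have h1 := hN g⁻¹ (G.inv_mem hg) n hn
    rw [inv_inv] at h1
    have h2 := hz.2 _ h1
    calc n * (g * z * g⁻¹) = g * ((g⁻¹ * n * g) * z) * g⁻¹ := by group
      _ = g * (z * (g⁻¹ * n * g)) * g⁻¹ := by rw [h2]
      _ = _ := by group
  exact hna (abelian_case h hZG hZN hZne (fun a ha b hb => ((hZ1 b).1 hb).2 a ((hZ1 a).1 ha).1))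

/-- the claim for elements of prime order -/
theorem claim_prime [Finite Q] (h : AL G L J e) (hna : ¬ Assoc L) {p : ℕ} [Fact p.Prime]
    (hp2 : p ≠ 2) {b : Perm Q} (hb : b ∈ G) (hbp : b ^ p = 1) {q : Q}
    (hq : D L J q * b * D L J q = b⁻¹) (hw : ∀ r, Commute b (D L J r * b * D L J r)) : b = 1 := by
  have hE1 : ∀ w ∈ {w : GJ h | ∃ r, (w : Perm Q) = D L J r}, w * w = 1 := by
    rintro w ⟨r, hr⟩
    apply Subtype.ext
    show (w : Perm Q) * w = 1
    rw [hr, h.D_sq]
  have hE2 : ∀ w ∈ {w : GJ h | ∃ r, (w : Perm Q) = D L J r}, ∀ g : GJ h,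
      g * w * g⁻¹ ∈ {w : GJ h | ∃ r, (w : Perm Q) = D L J r} := by
    rintro w ⟨r, hr⟩ g
    refine ⟨(g : Perm Q) r, ?_⟩
    show (g : Perm Q) * w * (g : Perm Q)⁻¹ = _
    rw [hr, h.D_conjGJ g.2]
  obtain ⟨N, hN1, hN2, hN3⟩ := Pool.Agent.H53.AL.claim_normal (M := GJ h) p hp2
    {w : GJ h | ∃ r, (w : Perm Q) = D L J r} hE1 hE2 ⟨b, Or.inl hb⟩ ⟨D L J q, h.D_mem q⟩
    (Subtype.ext hbp) ⟨q, rfl⟩ (Subtype.ext hq) (by
      rintro w ⟨r, hr⟩
      apply Subtype.ext
      show b * ((w : Perm Q) * b * w) = (w : Perm Q) * b * w * b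
      rw [hr]
      exact (hw r).eq)
  let N' : Subgroup (Perm Q) := (N.map (GJ h).subtype) ⊓ G
  have h1 : IsPGroup p N' := (hN2.map (GJ h).subtype).to_le inf_le_left
  have h2 : Nm G N' := by
    rintro g hg n ⟨⟨m, hm, rfl⟩, hn⟩
    refine ⟨⟨⟨g, Or.inl hg⟩ * m * ⟨g, Or.inl hg⟩⁻¹, hN1.conj_mem m hm _, rfl⟩, ?_⟩
    exact G.mul_mem (G.mul_mem hg hn) (G.inv_mem hg)
  have h3 := h.no_pgroup hna (inf_le_right : N' ≤ G) h2 h1
  have h4 : b ∈ N' := ⟨⟨⟨b, Or.inl hb⟩, hN3, rfl⟩, hb⟩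
  have h5 : b ∈ (⊥ : Subgroup (Perm Q)) := h3 ▸ h4
  exact Subgroup.mem_bot.1 h5

/-- **the claim for the multiplication group** -/
theorem claimAL [Finite Q] (h : AL G L J e) (hna : ¬ Assoc L) {b : Perm Q} (hb : b ∈ G)
    (hodd : Odd (orderOf b)) {q : Q} (hq : D L J q * b * D L J q = b⁻¹)
    (hw : ∀ r, Commute b (D L J r * b * D L J r)) : b = 1 := by
  by_contra hne
  have h1 : orderOf b ≠ 1 := fun h => hne (orderOf_eq_one_iff.1 h)
  obtain ⟨p, hp, k, hk⟩ := Nat.exists_prime_and_dvd h1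
  haveI : Fact p.Prime := ⟨hp⟩
  have hp2 : p ≠ 2 := by
    rintro rfl
    rw [hk] at hodd
    exact (Nat.not_odd_iff_even.2 (even_two_mul k)) hodd
  have hconj : ∀ r (m : ℕ), D L J r * b ^ m * D L J r = (D L J r * b * D L J r) ^ m := by
    intro r m
    have i1 : (D L J r)⁻¹ = D L J r := inv_eq_of_mul_eq_one_left (h.D_sq r)
    have := (conj_pow (i := m) (a := D L J r) (b := b))
    rw [i1] at this
    exact this.symm
  have h2 : b ^ k = 1 := by
    refine h.claim_prime hna hp2 (G.pow_mem hb k) ?_ (q := q) ?_ ?_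
    · rw [← pow_mul, mul_comm k p, ← hk, pow_orderOf_eq_one]
    · rw [hconj, hq, inv_pow]
    · intro r
      rw [hconj]
      exact (hw r).pow_pow k k
  have h3 : orderOf b ∣ k := orderOf_dvd_of_pow_eq_one h2
  have hpos : 0 < orderOf b := orderOf_pos b
  have hk0 : 0 < k := by
    rcases Nat.eq_zero_or_pos k with h | h
    · rw [h, mul_zero] at hk
      omega
    · exact h
  have h4 := Nat.le_of_dvd hk0 h3
  have h5 := hp.two_le
  rw [hk] at h4
  nlinarith

/-- the products `D_x J` have odd order, if `e` is the only fixed point of `J` -/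
theorem odd_P [Finite Q] (h : AL G L J e) (hfix : ∀ x, J x = x → x = e) (x : Q) :
    Odd (orderOf (D L J x * J)) := by
  by_contra hev
  rw [Nat.not_odd_iff_even] at hev
  obtain ⟨k, hk⟩ := hev
  obtain ⟨r, hr⟩ : ∃ r, r = D L J x * J := ⟨_, rfl⟩
  rw [← hr] at hk
  have hJJ := h.JJ1
  have hDD := h.D_sq x
  have hJr : J * r * J = r⁻¹ := by
    rw [hr, mul_inv_rev, h.Jinv]
    have i1 : (D L J x)⁻¹ = D L J x := inv_eq_of_mul_eq_one_left hDD
    rw [i1]
    calc J * (D L J x * J) * J = J * D L J x * (J * J) := by group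
      _ = _ := by rw [hJJ, mul_one]
  have hrJ : r * J = D L J x := by
    rw [hr, mul_assoc, hJJ, mul_one]
  have hrG : r ∈ G := by
    rw [hr]
    have h1 := G.mul_mem (h.memL x) (h.JG _ (G.inv_mem (h.memL x)))
    have : D L J x * J = L x * (J * (L x)⁻¹ * J) := by unfold D; group
    rwa [this]
  have hJrp : ∀ m : ℕ, J * r ^ m = (r ^ m)⁻¹ * J := by
    intro m
    have h1 : J * r ^ m * J⁻¹ = (J * r * J⁻¹) ^ m := (conj_pow).symm
    rw [h.Jinv, hJr, inv_pow] at h1
    calc J * r ^ m = J * r ^ m * (J * J) := by rw [hJJ, mul_one]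
      _ = (J * r ^ m * J) * J := by group
      _ = _ := by rw [h1]
  have hpos : 0 < orderOf r := orderOf_pos r
  have hk0 : 0 < k := by omega
  have h2k : r ^ (k + k) = 1 := by rw [← hk, pow_orderOf_eq_one]
  have ht : (r ^ k)⁻¹ = r ^ k := by
    rw [pow_add] at h2k
    exact inv_eq_of_mul_eq_one_left h2k
  have hne : r ^ k ≠ 1 := by
    intro h1
    have h2 := Nat.le_of_dvd hk0 (orderOf_dvd_of_pow_eq_one h1)
    omega
  have htJ : J * r ^ k = r ^ k * J := by rw [hJrp, ht]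
  -- `r ^ k * J` is a conjugate of `J`
  have hy : ∃ y, r ^ k * J = D L J y := by
    rcases Nat.even_or_odd k with ⟨m, hm⟩ | ⟨m, hm⟩
    · refine ⟨(r ^ m) e, ?_⟩
      rw [← h.D_conj (G.pow_mem hrG m), h.D_e]
      have h1 := hJrp m
      calc r ^ k * J = r ^ m * (r ^ m * J) := by rw [hm, pow_add]; group
        _ = r ^ m * ((J * (J * (r ^ m * J)))) := by rw [← mul_assoc J J, hJJ, one_mul]
        _ = r ^ m * (J * (J * r ^ m) * J) := by group
        _ = r ^ m * (J * ((r ^ m)⁻¹ * J) * J) := by rw [h1]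
        _ = r ^ m * J * (r ^ m)⁻¹ * (J * J) := by group
        _ = r ^ m * J * (r ^ m)⁻¹ := by rw [hJJ, mul_one]
    · refine ⟨(r ^ m) x, ?_⟩
      rw [← h.D_conj (G.pow_mem hrG m), ← hrJ]
      have h1 := hJrp m
      have h1' : J * (r ^ m)⁻¹ = r ^ m * J := by
        calc J * (r ^ m)⁻¹ = (J * (r ^ m)⁻¹) * (J * J) := by rw [hJJ, mul_one]
          _ = J * ((r ^ m)⁻¹ * J) * J := by group
          _ = J * (J * r ^ m) * J := by rw [h1]
          _ = (J * J) * r ^ m * J := by group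
          _ = r ^ m * J := by rw [hJJ, one_mul]
      calc r ^ k * J = r ^ m * r * (r ^ m * J) := by
            rw [hm, show 2 * m + 1 = m + 1 + m by ring, pow_add, pow_add, pow_one]; group
        _ = r ^ m * r * (J * (r ^ m)⁻¹) := by rw [h1']
        _ = r ^ m * (r * J) * (r ^ m)⁻¹ := by group
  obtain ⟨y, hy⟩ := hy
  have h3 : J * D L J y * J = D L J y := by
    rw [← hy]
    calc J * (r ^ k * J) * J = J * r ^ k * (J * J) := by group
      _ = r ^ k * J := by rw [hJJ, mul_one, htJ]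
  rw [h.D_J] at h3
  have h4 := hfix y (h.D_inj h3)
  rw [h4, h.D_e] at hy
  apply hne
  calc r ^ k = r ^ k * (J * J) := by rw [hJJ, mul_one]
    _ = (r ^ k * J) * J := by group
    _ = 1 := by rw [hy, hJJ]

end AL

end ALoop
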