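import Mathlib

/-!
MP_52f71e_al, commutative case: the pure group theory of the steps (1)-(4), (6), (7).
-/

set_option autoImplicit false

namespace ALoop

section Grp

variable {M : Type*} [Group M]

/-- step (1) -/
theorem grp1 {B C t : M} (hBC : B * C = C * B)
    (hX : (B * t) * (C * t⁻¹) = (C * t⁻¹) * (B * t)) :
    (B⁻¹ * t * B) * (C⁻¹ * t * C) = t * t := by
  have h1 : C⁻¹ * t * C * t⁻¹ = B⁻¹ * t⁻¹ * B * t := by
    calc C⁻¹ * t * C * t⁻¹ = (B * C)⁻¹ * ((B * t) * (C * t⁻¹)) := by group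
      _ = (C * B)⁻¹ * ((C * t⁻¹) * (B * t)) := by rw [hX, hBC]
      _ = B⁻¹ * t⁻¹ * B * t := by group
  calc (B⁻¹ * t * B) * (C⁻¹ * t * C) = (B⁻¹ * t * B) * (C⁻¹ * t * C * t⁻¹) * t := by group
    _ = (B⁻¹ * t * B) * (B⁻¹ * t⁻¹ * B * t) * t := by rw [h1]
    _ = t * t := by group

/-- step (2) -/
theorem grp2 {p m t : M} (h1 : p * m = t * t) (h2 : m * p = t * t) :
    Commute (t * t) p ∧ Commute (t * t) m ∧ Commute p m ∧
      Commute (t * t) (p * p) ∧ Commute (t * t) (m * m) ∧ Commute (p * p) (m * m) ∧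
      (p * p) * (m * m) = (t * t) * (t * t) := by
  have c : Commute p m := by
    show p * m = m * p
    rw [h1, h2]
  have c1 : Commute (t * t) p := by
    rw [← h1]
    exact (Commute.refl p).mul_left c.symm
  have c2 : Commute (t * t) m := by
    rw [← h1]
    exact c.mul_left (Commute.refl m)
  refine ⟨c1, c2, c, c1.mul_right c1, c2.mul_right c2, (c.mul_right c).mul_left (c.mul_right c), ?_⟩
  calc (p * p) * (m * m) = p * (p * m) * m := by group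
    _ = p * (m * p) * m := by rw [c.eq]
    _ = (p * m) * (p * m) := by group
    _ = _ := by rw [h1]

/-- step (4) -/
theorem grp4 {g B D E X : M} (hD : D * D = 1) (hE : E * E = 1)
    (h1 : Commute g (D * g * D)) (h2 : Commute g (B⁻¹ * g * B))
    (hA1 : X * (g * D * g⁻¹ * D) * X⁻¹ = (g * B * g⁻¹) * E * (g * B * g⁻¹)⁻¹ * (B * E * B⁻¹))
    (hA2 : X * ((g * g) * D * (g * g)⁻¹ * D) * X⁻¹ =
      ((g * g) * B * (g * g)⁻¹) * E * ((g * g) * B * (g * g)⁻¹)⁻¹ * (B * E * B⁻¹)) :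
    Commute (g * (B⁻¹ * g * B)⁻¹) (E * (g * (B⁻¹ * g * B)⁻¹) * E) := by
  have hDi : D⁻¹ = D := inv_eq_of_mul_eq_one_left hD
  have hEi : E⁻¹ = E := inv_eq_of_mul_eq_one_left hE
  obtain ⟨p, hp⟩ : ∃ p, p = B⁻¹ * g * B := ⟨_, rfl⟩
  obtain ⟨v, hv⟩ : ∃ v, v = D * g * D := ⟨_, rfl⟩
  rw [← hp] at h2 ⊢
  rw [← hv] at h1
  have hBp : g * B = B * p := by rw [hp]; group
  have hvi : v⁻¹ = D * g⁻¹ * D := by
    rw [hv, mul_inv_rev, mul_inv_rev, hDi]; group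
  obtain ⟨w, hw⟩ : ∃ w, w = g * p⁻¹ := ⟨_, rfl⟩
  have hwi : w⁻¹ = p * g⁻¹ := by rw [hw]; group
  rw [← hw]
  have e1 : g * B * g⁻¹ = B * w⁻¹ := by
    rw [hBp, hwi]; group
  have e2 : (g * g) * B * (g * g)⁻¹ = B * (w⁻¹ * w⁻¹) := by
    have h3 : Commute p g⁻¹ := h2.symm.inv_right
    rw [hwi]
    calc (g * g) * B * (g * g)⁻¹ = g * (g * B) * g⁻¹ * g⁻¹ := by group
      _ = g * (B * p) * g⁻¹ * g⁻¹ := by rw [hBp]
      _ = (g * B) * p * g⁻¹ * g⁻¹ := by group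
      _ = (B * p) * p * g⁻¹ * g⁻¹ := by rw [hBp]
      _ = B * (p * (p * g⁻¹) * g⁻¹) := by group
      _ = B * (p * (g⁻¹ * p) * g⁻¹) := by rw [h3.eq]
      _ = _ := by group
  have e3 : g * D * g⁻¹ * D = g * v⁻¹ := by rw [hvi]; group
  have e4 : (g * g) * D * (g * g)⁻¹ * D = (g * v⁻¹) * (g * v⁻¹) := by
    have h3 : Commute g v⁻¹ := h1.inv_right
    calc (g * g) * D * (g * g)⁻¹ * D = g * g * (D * g⁻¹ * 1 * g⁻¹ * D) := by group
      _ = g * g * (D * g⁻¹ * (D * D) * g⁻¹ * D) := by rw [hD]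
      _ = g * g * ((D * g⁻¹ * D) * (D * g⁻¹ * D)) := by group
      _ = g * (g * v⁻¹) * v⁻¹ := by rw [← hvi]; group
      _ = g * (v⁻¹ * g) * v⁻¹ := by rw [h3.eq]
      _ = _ := by group
  rw [e3, e1] at hA1
  rw [e4, e2] at hA2
  obtain ⟨u, hu⟩ : ∃ u, u = E * w * E := ⟨_, rfl⟩
  rw [← hu]
  have huu : u * u = E * (w * w) * E := by
    rw [hu]
    calc E * w * E * (E * w * E) = E * w * (E * E) * w * E := by group
      _ = _ := by rw [hE]; group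
  have f1 : X * (g * v⁻¹) * X⁻¹ = B * (w⁻¹ * u) * B⁻¹ := by
    rw [hA1, hu]; group
  have f2 : X * ((g * v⁻¹) * (g * v⁻¹)) * X⁻¹ = B * (w⁻¹ * w⁻¹ * (u * u)) * B⁻¹ := by
    rw [hA2, huu]
    simp only [mul_assoc, mul_inv_rev, inv_inv, inv_mul_cancel_left]
  have f3 : B * (w⁻¹ * w⁻¹ * (u * u)) * B⁻¹ = B * ((w⁻¹ * u) * (w⁻¹ * u)) * B⁻¹ := by
    rw [← f2]
    calc X * ((g * v⁻¹) * (g * v⁻¹)) * X⁻¹
        = (X * (g * v⁻¹) * X⁻¹) * (X * (g * v⁻¹) * X⁻¹) := by group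
      _ = (B * (w⁻¹ * u) * B⁻¹) * (B * (w⁻¹ * u) * B⁻¹) := by rw [f1]
      _ = _ := by group
  have f4 : w⁻¹ * w⁻¹ * (u * u) = (w⁻¹ * u) * (w⁻¹ * u) := by
    exact mul_left_cancel (mul_right_cancel f3)
  have f5 : w⁻¹ * u = u * w⁻¹ := by
    calc w⁻¹ * u = w * (w⁻¹ * w⁻¹ * (u * u)) * u⁻¹ := by group
      _ = w * ((w⁻¹ * u) * (w⁻¹ * u)) * u⁻¹ := by rw [f4]
      _ = u * w⁻¹ := by group
  have f6 : Commute w⁻¹ u := f5
  have f7 := f6.inv_left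
  rwa [inv_inv] at f7

/-- step (6) -/
theorem grp6 {B C t : M} (h1 : (B⁻¹ * t * B) * (C⁻¹ * t * C) = t * t)
    (h2 : Commute (t * t) B) : Commute t (B * C⁻¹) := by
  have h4 : t * (B * C⁻¹) * t = (t * t) * (B * C⁻¹) := by
    calc t * (B * C⁻¹) * t = B * ((B⁻¹ * t * B) * (C⁻¹ * t * C)) * C⁻¹ := by group
      _ = B * (t * t) * C⁻¹ := by rw [h1]
      _ = (t * t) * B * C⁻¹ := by rw [h2.eq]
      _ = _ := by group
  show t * (B * C⁻¹) = (B * C⁻¹) * t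
  calc t * (B * C⁻¹) = t⁻¹ * ((t * t) * (B * C⁻¹)) := by group
    _ = t⁻¹ * (t * (B * C⁻¹) * t) := by rw [h4]
    _ = _ := by group

/-- step (7): `Y = L b`, `A = L a`, `C = L (J a)` -/
theorem grp7 {A C Y t J : M} (hJ : J * J = 1) (hJt : Commute t J)
    (hJA : J * A * J = C)
    (ht : A⁻¹ * Y⁻¹ * A * Y = t) (ht' : C⁻¹ * Y⁻¹ * C * Y = t⁻¹)
    (h1 : Commute t A) (h2 : Commute t C) (h3 : Commute t Y) :
    Commute (A * C⁻¹) ((Y * J * Y⁻¹) * (A * C⁻¹) * (Y * J * Y⁻¹)) := by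
  obtain ⟨P, hP⟩ : ∃ P, P = A * C⁻¹ := ⟨_, rfl⟩
  have hJi : J⁻¹ = J := inv_eq_of_mul_eq_one_left hJ
  have hJC : J * C * J = A := by
    rw [← hJA]
    calc J * (J * A * J) * J = (J * J) * A * (J * J) := by group
      _ = A := by rw [hJ]; group
  have hP1 : J * P * J = P⁻¹ := by
    have h4 : J * C⁻¹ * J = A⁻¹ := by
      rw [← hJC, mul_inv_rev, mul_inv_rev, hJi]; group
    rw [hP]
    calc J * (A * C⁻¹) * J = (J * A) * 1 * (C⁻¹ * J) := by group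
      _ = (J * A) * (J * J) * (C⁻¹ * J) := by rw [hJ]
      _ = (J * A * J) * (J * C⁻¹ * J) := by group
      _ = C * A⁻¹ := by rw [hJA, h4]
      _ = (A * C⁻¹)⁻¹ := by group
  have htP : Commute t P := by
    rw [hP]
    exact h1.mul_right h2.inv_right
  have k1 : Y⁻¹ * A * Y = A * t := by rw [← ht]; group
  have k2 : Y⁻¹ * C * Y = C * t⁻¹ := by rw [← ht']; group
  have k3 : Y⁻¹ * P * Y = t * t * P := by
    rw [hP]
    calc Y⁻¹ * (A * C⁻¹) * Y = (Y⁻¹ * A * Y) * (Y⁻¹ * C * Y)⁻¹ := by group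
      _ = (A * t) * (C * t⁻¹)⁻¹ := by rw [k1, k2]
      _ = (A * t) * t * C⁻¹ := by group
      _ = (t * A) * t * C⁻¹ := by rw [h1.eq]
      _ = t * (A * t) * C⁻¹ := by group
      _ = t * (t * A) * C⁻¹ := by rw [h1.eq]
      _ = _ := by group
  have h3' : Commute (t * t) Y := h3.mul_left h3
  have k4 : Y * P⁻¹ * Y⁻¹ = t * t * P⁻¹ := by
    have : P = (t * t) * (Y * P * Y⁻¹) := by
      calc P = Y * (Y⁻¹ * P * Y) * Y⁻¹ := by group
        _ = Y * (t * t * P) * Y⁻¹ := by rw [k3]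
        _ = (Y * (t * t)) * P * Y⁻¹ := by group
        _ = ((t * t) * Y) * P * Y⁻¹ := by rw [h3'.eq]
        _ = _ := by group
    have h5 : Y * P * Y⁻¹ = (t * t)⁻¹ * P := by
      calc Y * P * Y⁻¹ = (t * t)⁻¹ * ((t * t) * (Y * P * Y⁻¹)) := by group
        _ = (t * t)⁻¹ * P := by rw [← this]
    have h6 : Commute (t * t) P⁻¹ := (htP.mul_left htP).inv_right
    calc Y * P⁻¹ * Y⁻¹ = (Y * P * Y⁻¹)⁻¹ := by group
      _ = ((t * t)⁻¹ * P)⁻¹ := by rw [h5]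
      _ = P⁻¹ * (t * t) := by rw [mul_inv_rev, inv_inv]
      _ = _ := h6.eq.symm
  have htJ2 : Commute (t * t) J := hJt.mul_left hJt
  have k5 : (Y * J * Y⁻¹) * P * (Y * J * Y⁻¹) = (t * t) * (t * t) * P⁻¹ := by
    calc (Y * J * Y⁻¹) * P * (Y * J * Y⁻¹) = Y * (J * (Y⁻¹ * P * Y) * J) * Y⁻¹ := by group
      _ = Y * (J * (t * t * P) * J) * Y⁻¹ := by rw [k3]
      _ = Y * ((J * (t * t)) * P * J) * Y⁻¹ := by group
      _ = Y * (((t * t) * J) * P * J) * Y⁻¹ := by rw [htJ2.eq]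
      _ = (Y * (t * t)) * (J * P * J) * Y⁻¹ := by group
      _ = ((t * t) * Y) * P⁻¹ * Y⁻¹ := by rw [h3'.eq, hP1]
      _ = (t * t) * (Y * P⁻¹ * Y⁻¹) := by group
      _ = (t * t) * (t * t * P⁻¹) := by rw [k4]
      _ = _ := by group
  rw [← hP, k5]
  have h7 : Commute P (t * t) := (htP.mul_left htP).symm
  exact (h7.mul_right h7).mul_right (Commute.refl P).inv_right

end Grp

end ALoop
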