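import Pool.Agent.H40.O2.K1
import Pool.Agent.H40.O2.Cl
import Pool.Agent.H40.O2.Grp
import Pool.Agent.H4.Loop.Final

/-!
MP_52f71e_al, commutative case (helper8's proof): a simple finite automorphic loop with `L x` and
`R x` equal is associative.
-/

set_option autoImplicit false

namespace ALoop

open Equiv

variable {Q : Type*} {G : Subgroup (Perm Q)} {L : Q → Perm Q} {J : Perm Q} {e : Q}

namespace AL

/-- `L b` commutes with `L (J b)` -/
theorem o2_cLL (h : AL G L J e) (hc : ∀ x, J * L (J x) * J = L x) (b : Q) :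
    Commute (L b) (L (J b)) := by
  have h1 := h.comLR b
  rw [h.o2_JLJ hc] at h1
  exact h1

/-- `D b = L b (L (J b))⁻¹ J` -/
theorem o2_D (h : AL G L J e) (hc : ∀ x, J * L (J x) * J = L x) (b : Q) :
    D L J b = L b * (L (J b))⁻¹ * J := by
  have h1 : J * (L b)⁻¹ * J = (L (J b))⁻¹ := by
    rw [← h.o2_JLJ hc b, mul_inv_rev, mul_inv_rev, h.Jinv]; group
  unfold D
  rw [← h1]
  calc L b * J * (L b)⁻¹ = L b * J * (L b)⁻¹ * 1 := by group
    _ = L b * J * (L b)⁻¹ * (J * J) := by rw [h.JJ1]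
    _ = _ := by group

/-- `D (k b) D b` conjugated by `L q` -/
theorem o2_lemA (h : AL G L J e) (hc : ∀ x, J * L (J x) * J = L x) {k : Perm Q} (hk : k ∈ G)
    (hke : k e = e) (b q : Q) :
    L q * (k * D L J b * k⁻¹ * D L J b) * (L q)⁻¹ =
      (k * L b * k⁻¹) * D L J q * (k * L b * k⁻¹)⁻¹ * (L b * D L J q * (L b)⁻¹) := by
  have h1 : k * D L J b * k⁻¹ = D L J (k b) := h.D_conj hk b
  have h2 : L q * D L J (k b) * (L q)⁻¹ = D L J (L (k b) q) := by
    rw [h.D_conj (h.memL q), h.o2_comm hc q (k b)]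
  have h3 : L q * D L J b * (L q)⁻¹ = D L J (L b q) := by
    rw [h.D_conj (h.memL q), h.o2_comm hc q b]
  rw [h.equi k hk hke b, h.D_conj (h.memL _), h.D_conj (h.memL _), h1, ← h2, ← h3]
  group

/-- the inner mapping `θ` -/
def TT (L : Q → Perm Q) (a b : Q) : Perm Q := (L a)⁻¹ * (L b)⁻¹ * L a * L b

theorem TT_mem (h : AL G L J e) (hc : ∀ x, J * L (J x) * J = L x) (a b : Q) :
    TT L a b ∈ G := (h.k1_mem hc a b).1

theorem TT_e (h : AL G L J e) (hc : ∀ x, J * L (J x) * J = L x) (a b : Q) :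
    TT L a b e = e := (h.k1_mem hc a b).2

theorem TT_J (h : AL G L J e) (hc : ∀ x, J * L (J x) * J = L x) (a b : Q) :
    Commute (TT L a b) J := h.comJ _ (h.TT_mem hc a b) (h.TT_e hc a b)

/-- step (1) -/
theorem o2_s1 (h : AL G L J e) (hc : ∀ x, J * L (J x) * J = L x) (a b : Q) :
    ((L b)⁻¹ * TT L b a * L b) * ((L (J b))⁻¹ * TT L b a * L (J b)) = TT L b a * TT L b a := by
  refine grp1 (h.o2_cLL hc b) ?_
  have e1 : L b * TT L b a = (L a)⁻¹ * L b * L a := by unfold TT; group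
  have e2 : L (J b) * (TT L b a)⁻¹ = (L a)⁻¹ * L (J b) * L a := by
    have := h.k1 hc b a
    unfold TT
    rw [← this]; group
  rw [e1, e2]
  calc (L a)⁻¹ * L b * L a * ((L a)⁻¹ * L (J b) * L a) = (L a)⁻¹ * (L b * L (J b)) * L a := by group
    _ = (L a)⁻¹ * (L (J b) * L b) * L a := by rw [(h.o2_cLL hc b).eq]
    _ = _ := by group

/-- steps (1)-(5): `θ(b,a)²` fixes `b` -/
theorem o2_s5 [Finite Q] (h : AL G L J e) (hc : ∀ x, J * L (J x) * J = L x) (hna : ¬ Assoc L)
    (hfix : ∀ x, J x = x → x = e) (a b : Q) : (TT L b a * TT L b a) b = b := by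
  obtain ⟨t, ht⟩ : ∃ t, t = TT L b a := ⟨_, rfl⟩
  have hJJ := h.JJ1
  have s1 := h.o2_s1 hc a b
  have tG : t ∈ G := ht ▸ h.TT_mem hc b a
  have te : t e = e := ht ▸ h.TT_e hc b a
  have tJ : Commute t J := ht ▸ h.TT_J hc b a
  rw [← ht] at s1 ⊢
  obtain ⟨p, hp⟩ : ∃ p, p = (L b)⁻¹ * t * L b := ⟨_, rfl⟩
  obtain ⟨m, hm⟩ : ∃ m, m = (L (J b))⁻¹ * t * L (J b) := ⟨_, rfl⟩
  rw [← hp, ← hm] at s1
  have JpJ : J * p * J = m := by
    rw [hp, hm]
    rw [← h.o2_JLJ hc b, mul_inv_rev, mul_inv_rev, h.Jinv]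
    calc J * ((L b)⁻¹ * t * L b) * J = J * (L b)⁻¹ * (t * 1) * L b * J := by group
      _ = J * (L b)⁻¹ * (t * (J * J)) * L b * J := by rw [hJJ]
      _ = J * (L b)⁻¹ * ((t * J) * J) * L b * J := by group
      _ = J * (L b)⁻¹ * ((J * t) * J) * L b * J := by rw [tJ.eq]
      _ = _ := by group
  have JmJ : J * m * J = p := by
    rw [← JpJ, h.JconjJ]
  have s2 : m * p = t * t := by
    calc m * p = (J * p * J) * (J * m * J) := by rw [JpJ, JmJ]
      _ = J * p * (J * J) * m * J := by group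
      _ = J * (p * m) * J := by rw [hJJ]; group
      _ = J * (t * t) * J := by rw [s1]
      _ = (J * t) * t * J := by group
      _ = (t * J) * t * J := by rw [tJ.eq]
      _ = t * (J * t) * J := by group
      _ = t * (t * J) * J := by rw [tJ.eq]
      _ = t * t * (J * J) := by group
      _ = _ := by rw [hJJ, mul_one]
  obtain ⟨c1, c2, c3, c4, c5, c6, c7⟩ := grp2 s1 s2
  obtain ⟨g, hg⟩ : ∃ g, g = t * t := ⟨_, rfl⟩
  rw [← hg] at c1 c2 c4 c5 c7 ⊢
  have gG : g ∈ G := hg ▸ G.mul_mem tG tG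
  have ge : g e = e := by rw [hg, Perm.mul_apply, te, te]
  have gJ : Commute g J := by rw [hg]; exact tJ.mul_left tJ
  have gp : (L b)⁻¹ * g * L b = p * p := by rw [hg, hp]; group
  have gm : (L (J b))⁻¹ * g * L (J b) = m * m := by rw [hg, hm]; group
  -- `g` commutes with `D b g D b`
  have cD : Commute g (D L J b * g * D L J b) := by
    have e1 : D L J b * g * D L J b = L b * ((L (J b))⁻¹ * g * L (J b)) * (L b)⁻¹ := by
      have i1 : (D L J b)⁻¹ = D L J b := inv_eq_of_mul_eq_one_left (h.D_sq b)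
      have i2 : D L J b * g * D L J b = D L J b * g * (D L J b)⁻¹ := by rw [i1]
      rw [i2, h.o2_D hc b]
      calc L b * (L (J b))⁻¹ * J * g * (L b * (L (J b))⁻¹ * J)⁻¹
          = L b * (L (J b))⁻¹ * (J * g) * J⁻¹ * L (J b) * (L b)⁻¹ := by group
        _ = L b * (L (J b))⁻¹ * (g * J) * J⁻¹ * L (J b) * (L b)⁻¹ := by rw [gJ.eq]
        _ = _ := by group
    rw [e1, gm]
    have e2 : L b * (p * p) * (L b)⁻¹ = g := by rw [← gp]; group
    show g * (L b * (m * m) * (L b)⁻¹) = (L b * (m * m) * (L b)⁻¹) * g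
    calc g * (L b * (m * m) * (L b)⁻¹) = (L b * (p * p) * (L b)⁻¹) * (L b * (m * m) * (L b)⁻¹) := by
          rw [e2]
      _ = L b * ((p * p) * (m * m)) * (L b)⁻¹ := by group
      _ = L b * ((m * m) * (p * p)) * (L b)⁻¹ := by rw [c6.eq]
      _ = (L b * (m * m) * (L b)⁻¹) * (L b * (p * p) * (L b)⁻¹) := by group
      _ = _ := by rw [e2]
  have cP : Commute g ((L b)⁻¹ * g * L b) := by rw [gp]; exact c4
  obtain ⟨w, hw⟩ : ∃ w, w = g * ((L b)⁻¹ * g * L b)⁻¹ := ⟨_, rfl⟩
  have hwq : ∀ q, Commute w (D L J q * w * D L J q) := by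
    intro q
    rw [hw]
    exact grp4 (X := L q) (h.D_sq b) (h.D_sq q) cD cP (h.o2_lemA hc gG ge b q)
      (h.o2_lemA hc (G.mul_mem gG gG) (by rw [Perm.mul_apply, ge, ge]) b q)
  have wG : w ∈ G := by
    rw [hw]
    exact G.mul_mem gG (G.inv_mem (G.mul_mem (G.mul_mem (G.inv_mem (h.memL _)) gG) (h.memL _)))
  -- `w` is inverted by `J`
  have wJ : J * w * J = w⁻¹ := by
    have e1 : w = g * (p * p)⁻¹ := by rw [hw, gp]
    have e2 : J * (p * p)⁻¹ * J = (m * m)⁻¹ := by
      rw [← JpJ]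
      simp only [mul_inv_rev, h.Jinv]
      calc J * (p⁻¹ * p⁻¹) * J = J * p⁻¹ * 1 * p⁻¹ * J := by group
        _ = J * p⁻¹ * (J * J) * p⁻¹ * J := by rw [hJJ]
        _ = _ := by group
    rw [e1]
    calc J * (g * (p * p)⁻¹) * J = (J * g) * (p * p)⁻¹ * J := by group
      _ = (g * J) * (p * p)⁻¹ * J := by rw [gJ.eq]
      _ = g * (J * (p * p)⁻¹ * J) := by group
      _ = g * (m * m)⁻¹ := by rw [e2]
      _ = (g * g) * (g⁻¹ * (m * m)⁻¹) := by group
      _ = ((p * p) * (m * m)) * (g⁻¹ * (m * m)⁻¹) := by rw [c7]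
      _ = ((p * p) * (m * m)) * ((m * m)⁻¹ * g⁻¹) := by rw [(c5.inv_left.inv_right).eq]
      _ = (p * p) * g⁻¹ := by rw [mul_assoc, mul_inv_cancel_left]
      _ = (g * (p * p)⁻¹)⁻¹ := by rw [mul_inv_rev, inv_inv]
  have wJm : ∀ n : ℕ, J * w ^ n * J = (w ^ n)⁻¹ := by
    intro n
    have := (conj_pow (i := n) (a := J) (b := w))
    rw [h.Jinv, wJ] at this
    rw [← this, inv_pow]
  -- the odd part of `w` is trivial
  obtain ⟨k, n, hn, hkn⟩ := Nat.exists_eq_two_pow_mul_odd (n := orderOf w) (orderOf_pos w).ne'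
  have w1 : w ^ (2 ^ k) = 1 := by
    refine h.claimAL hna (G.pow_mem wG _) ?_ (q := e) ?_ ?_
    · have hd : orderOf (w ^ (2 ^ k)) ∣ n := by
        apply orderOf_dvd_of_pow_eq_one
        rw [← pow_mul, ← hkn, pow_orderOf_eq_one]
      exact Odd.of_dvd_nat hn hd
    · rw [h.D_e]
      exact wJm _
    · intro r
      have i1 : (D L J r)⁻¹ = D L J r := inv_eq_of_mul_eq_one_left (h.D_sq r)
      have hconj : D L J r * w ^ (2 ^ k) * D L J r = (D L J r * w * D L J r) ^ (2 ^ k) := by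
        have := (conj_pow (i := 2 ^ k) (a := D L J r) (b := w))
        rw [i1] at this
        exact this.symm
      rw [hconj]
      exact (hwq r).pow_pow _ _
  -- `w² = D (w e) J`
  have w2 : w * w = D L J (w e) * J := by
    have e1 := h.D_conj wG e
    rw [h.D_e] at e1
    rw [← e1]
    have e3 : J * w⁻¹ * J = w := by
      rw [← wJ, h.JconjJ]
    calc w * w = w * (J * w⁻¹ * J) := by rw [e3]
      _ = _ := by group
  have w3 : Odd (orderOf (w * w)) := by
    rw [w2]
    exact h.odd_P hfix _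
  have w4 : orderOf (w * w) ∣ 2 ^ k := by
    apply orderOf_dvd_of_pow_eq_one
    rw [(Commute.refl w).mul_pow, w1, one_mul]
  have w5 : w * w = 1 := by
    rw [← orderOf_eq_one_iff]
    obtain ⟨i, -, hi⟩ := (Nat.dvd_prime_pow Nat.prime_two).1 w4
    rw [hi] at w3 ⊢
    rcases Nat.eq_zero_or_pos i with h0 | h0
    · rw [h0, pow_zero]
    · exfalso
      have : Even (2 ^ i) := (Nat.even_pow' h0.ne').2 even_two
      exact (Nat.not_odd_iff_even.2 this) w3
  have w6 : w * J = J * w := by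
    have e1 : w⁻¹ = w := inv_eq_of_mul_eq_one_left w5
    rw [e1] at wJ
    calc w * J = (J * w * J) * J := by rw [wJ]
      _ = J * w * (J * J) := by group
      _ = _ := by rw [hJJ, mul_one]
  have w7 : w e = e := h.centJ wG w6
  have w8 : L (g b) = L b * w⁻¹ := by
    rw [← h.equi g gG ge b, hw]; group
  have w9 : w⁻¹ e = e := by rw [Perm.inv_eq_iff_eq, w7]
  calc g b = L (g b) e := (h.Le _).symm
    _ = L b (w⁻¹ e) := by rw [w8, Perm.mul_apply]
    _ = b := by rw [w9, h.Le]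

/-- step (6): `θ(b,a)` fixes `b` -/
theorem o2_s6 [Finite Q] (h : AL G L J e) (hc : ∀ x, J * L (J x) * J = L x) (hna : ¬ Assoc L)
    (hfix : ∀ x, J x = x → x = e) (a b : Q) : TT L b a b = b := by
  have s1 := h.o2_s1 hc a b
  have s5 := h.o2_s5 hc hna hfix a b
  have tG := h.TT_mem hc b a
  have te := h.TT_e hc b a
  have c1 : Commute (TT L b a * TT L b a) (L b) :=
    h.comL (G.mul_mem tG tG) (by rw [Perm.mul_apply, te, te]) s5
  have c2 := grp6 s1 c1
  rw [← h.D_cent tG, h.o2_D hc b]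
  exact (c2.mul_right (h.TT_J hc b a)).eq

theorem TT_inv (a b : Q) : (TT L a b)⁻¹ = TT L b a := by
  unfold TT; group

/-- **a finite simple commutative automorphic loop is associative** -/
theorem comm_case [Finite Q] (h : AL G L J e) (hc : ∀ x, J * L (J x) * J = L x) : Assoc L := by
  by_contra hna
  have hJJ := h.JJ1
  have hfix : ∀ x, J x = x → x = e := by
    intro x hx
    apply h.D_inj
    rw [h.D_e]
    have h1 := h.o2_JLJ hc x
    rw [hx] at h1
    have h2 : L x * J = J * L x := by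
      calc L x * J = (J * L x * J) * J := by rw [h1]
        _ = J * L x * (J * J) := by group
        _ = _ := by rw [hJJ, mul_one]
    unfold D
    rw [h2]; group
  have hall : ∀ a, a = e := by
    intro a
    obtain ⟨P, hP⟩ : ∃ P, P = L a * (L (J a))⁻¹ := ⟨_, rfl⟩
    have PG : P ∈ G := hP ▸ G.mul_mem (h.memL _) (G.inv_mem (h.memL _))
    have hDP : D L J a * J = P := by
      rw [h.o2_D hc a, hP]
      calc L a * (L (J a))⁻¹ * J * J = L a * (L (J a))⁻¹ * (J * J) := by group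
        _ = _ := by rw [hJJ, mul_one]
    have hPJ : J * P * J = P⁻¹ := by
      rw [← hDP]
      have i1 : (D L J a)⁻¹ = D L J a := inv_eq_of_mul_eq_one_left (h.D_sq a)
      rw [mul_inv_rev, i1, h.Jinv]
      calc J * (D L J a * J) * J = J * D L J a * (J * J) := by group
        _ = _ := by rw [hJJ, mul_one]
    have hodd : Odd (orderOf P) := hDP ▸ h.odd_P hfix a
    have P1 : P = 1 := by
      refine h.claimAL hna PG hodd (q := e) (by rw [h.D_e]; exact hPJ) ?_
      intro b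
      have tG := h.TT_mem hc a b
      have te := h.TT_e hc a b
      have ta : TT L a b a = a := h.o2_s6 hc hna hfix b a
      have tb : TT L a b b = b := by
        have h1 := h.o2_s6 hc hna hfix a b
        rw [← TT_inv a b, Perm.inv_eq_iff_eq] at h1
        exact h1.symm
      have tJ := h.TT_J hc a b
      have tJa : TT L a b (J a) = J a := by
        have := congrArg (fun p : Perm Q => p a) tJ.eq
        simp only [Perm.mul_apply] at this
        rw [this, ta]
      rw [hP]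
      exact grp7 (A := L a) (C := L (J a)) (Y := L b) (t := TT L a b) hJJ tJ (h.o2_JLJ hc a) rfl
        (by
          have := h.k1 hc a b
          unfold TT
          exact this)
        (h.comL tG te ta) (h.comL tG te tJa) (h.comL tG te tb)
    apply h.D_inj
    rw [h.D_e]
    rw [P1] at hDP
    calc D L J a = (D L J a * J) * J := by
          rw [mul_assoc, hJJ, mul_one]
      _ = _ := by rw [hDP, one_mul]
  apply h.Jne
  ext x
  rw [hall (J x), hall x]
  exact (hall _).symm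

end AL

end ALoop
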