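import Pool.Agent.H4.Loop.Prim

/-!
Case O2 (Q commutative) of MP_52f71e_al: helper98's identity K1 (proof after helper8).
-/

set_option autoImplicit false

namespace ALoop

open Equiv

variable {Q : Type*} {G : Subgroup (Perm Q)} {L : Q → Perm Q} {J : Perm Q} {e : Q}

/-- the base-free translation -/
def MM (L : Q → Perm Q) (J : Perm Q) (a b : Q) : Perm Q :=
  L b * L ((L b)⁻¹ a) * J * (L b)⁻¹

theorem o2_ap (p : Perm Q) (x : Q) : p (p⁻¹ x) = x := p.apply_symm_apply x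

theorem o2_ia (p : Perm Q) (x : Q) : p⁻¹ (p x) = x := p.symm_apply_apply x

namespace AL

theorem o2_JLJ (h : AL G L J e) (hc : ∀ x, J * L (J x) * J = L x) (x : Q) :
    J * L x * J = L (J x) := by
  have := hc (J x)
  rwa [h.JJ] at this

theorem o2_comm (h : AL G L J e) (hc : ∀ x, J * L (J x) * J = L x) (x y : Q) :
    L x y = L y x := by
  have := h.R_apply x y
  rw [hc y] at this
  exact this.symm

theorem o2_inv_e (h : AL G L J e) (b : Q) : (L b)⁻¹ e = J b := by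
  rw [Perm.inv_eq_iff_eq]
  exact (h.LJ b).symm

theorem o2_inv_self (h : AL G L J e) (b : Q) : (L b)⁻¹ b = e := by
  rw [Perm.inv_eq_iff_eq]
  exact (h.Le b).symm

theorem MM_conj (h : AL G L J e) {g : Perm Q} (hg : g ∈ G) (a b : Q) :
    g * MM L J a b * g⁻¹ = MM L J (g a) (g b) := by
  obtain ⟨k, hk⟩ : ∃ k, k = (L (g b))⁻¹ * g * L b := ⟨_, rfl⟩
  have hkG : k ∈ G := by
    rw [hk]
    exact G.mul_mem (G.mul_mem (G.inv_mem (h.memL _)) hg) (h.memL _)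
  have hke : k e = e := by
    rw [hk]
    show (L (g b))⁻¹ (g (L b e)) = e
    rw [h.Le, Perm.inv_eq_iff_eq, h.Le]
  have h1 : g * L b = L (g b) * k := by rw [hk]; group
  have h2 := h.equi k hkG hke ((L b)⁻¹ a)
  have h3 := h.comJ k hkG hke
  have h4 : k ((L b)⁻¹ a) = (L (g b))⁻¹ (g a) := by
    rw [hk]
    show (L (g b))⁻¹ (g (L b ((L b)⁻¹ a))) = _
    rw [o2_ap]
  rw [h4] at h2
  have h5 : k * J * k⁻¹ = J := by rw [h3]; group
  unfold MM
  calc g * (L b * L ((L b)⁻¹ a) * J * (L b)⁻¹) * g⁻¹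
      = (g * L b) * L ((L b)⁻¹ a) * J * (g * L b)⁻¹ := by group
    _ = L (g b) * (k * L ((L b)⁻¹ a) * k⁻¹) * (k * J * k⁻¹) * (L (g b))⁻¹ := by
        rw [h1]; group
    _ = L (g b) * L ((L (g b))⁻¹ (g a)) * J * (L (g b))⁻¹ := by rw [h2, h5]

theorem MM_J (h : AL G L J e) (hc : ∀ x, J * L (J x) * J = L x) (a b : Q) :
    J * MM L J a b * J = MM L J (J a) (J b) := by
  have h1 := h.o2_JLJ hc
  have hx : (L (J b))⁻¹ (J a) = J ((L b)⁻¹ a) := by
    rw [Perm.inv_eq_iff_eq, ← h1 b]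
    show J a = J (L b (J (J ((L b)⁻¹ a))))
    rw [h.JJ, o2_ap]
  unfold MM
  rw [hx, ← h1 b, ← h1 ((L b)⁻¹ a), mul_inv_rev, mul_inv_rev, h.Jinv]
  have hJ := h.JJ1
  calc J * (L b * L ((L b)⁻¹ a) * J * (L b)⁻¹) * J
      = J * L b * 1 * L ((L b)⁻¹ a) * 1 * J * (L b)⁻¹ * J := by group
    _ = J * L b * (J * J) * L ((L b)⁻¹ a) * (J * J) * J * (L b)⁻¹ * J := by rw [hJ]
    _ = J * L b * J * (J * L ((L b)⁻¹ a) * J) * J * (J * ((L b)⁻¹ * J)) := by
        calc J * L b * (J * J) * L ((L b)⁻¹ a) * (J * J) * J * (L b)⁻¹ * J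
            = J * L b * J * (J * L ((L b)⁻¹ a) * J) * (J * J) * (L b)⁻¹ * J := by group
          _ = _ := by group

/-- `t` or `t * J` is in `G`: conjugation by `t` -/
theorem MM_conj' (h : AL G L J e) (hc : ∀ x, J * L (J x) * J = L x) {t : Perm Q}
    (ht : t * J ∈ G) (a b : Q) : t * MM L J a b * t⁻¹ = MM L J (t a) (t b) := by
  have h1 := h.MM_conj ht (J a) (J b)
  rw [← h.MM_J hc] at h1
  have h2 : (t * J) (J a) = t a := by
    show t (J (J a)) = t a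
    rw [h.JJ]
  have h3 : (t * J) (J b) = t b := by
    show t (J (J b)) = t b
    rw [h.JJ]
  rw [h2, h3, mul_inv_rev, h.Jinv] at h1
  have hJ := h.JJ1
  rw [← h1]
  calc t * MM L J a b * t⁻¹ = t * 1 * MM L J a b * 1 * t⁻¹ := by group
    _ = t * (J * J) * MM L J a b * (J * J) * t⁻¹ := by rw [hJ]
    _ = t * J * (J * MM L J a b * J) * (J * t⁻¹) := by group

theorem MM_left (h : AL G L J e) (a b : Q) : MM L J a b b = a := by
  show L b (L ((L b)⁻¹ a) (J ((L b)⁻¹ b))) = a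
  rw [h.o2_inv_self, h.Je, h.Le, o2_ap]

theorem MM_right (h : AL G L J e) (a b : Q) : MM L J a b a = b := by
  show L b (L ((L b)⁻¹ a) (J ((L b)⁻¹ a))) = b
  rw [h.LJ, h.Le]

theorem MM_e (h : AL G L J e) (hc : ∀ x, J * L (J x) * J = L x) (a b : Q) :
    MM L J a b e = L a b := by
  show L b (L ((L b)⁻¹ a) (J ((L b)⁻¹ e))) = L a b
  rw [h.o2_inv_e, h.JJ, h.o2_comm hc _ b, o2_ap, h.o2_comm hc]

theorem MM_mem (h : AL G L J e) (a b : Q) : MM L J a b * J ∈ G := by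
  have h1 : J * (L b)⁻¹ * J ∈ G := h.JG _ (G.inv_mem (h.memL b))
  have h2 : MM L J a b * J = L b * L ((L b)⁻¹ a) * (J * (L b)⁻¹ * J) := by
    unfold MM; group
  rw [h2]
  exact G.mul_mem (G.mul_mem (h.memL _) (h.memL _)) h1

theorem MM_symm (h : AL G L J e) (hc : ∀ x, J * L (J x) * J = L x) (a b : Q) :
    MM L J a b = MM L J b a := by
  have h1 := h.MM_conj' hc (h.MM_mem a b) a b
  rw [h.MM_left, h.MM_right] at h1
  rw [← h1]
  group

theorem MM_swap (h : AL G L J e) (hc : ∀ x, J * L (J x) * J = L x) {t : Perm Q}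
    (ht : t * J ∈ G) {a b : Q} (h1 : t a = b) (h2 : t b = a) :
    t * MM L J a b = MM L J a b * t := by
  have h3 := h.MM_conj' hc ht a b
  rw [h1, h2, h.MM_symm hc b a] at h3
  rw [mul_inv_eq_iff_eq_mul] at h3
  exact h3

theorem MM_be (h : AL G L J e) (b : Q) : MM L J b e = L b * J := by
  unfold MM
  rw [h.Le1]
  simp

/-- the correction term `n₁` -/
def NN (L : Q → Perm Q) (J : Perm Q) (a b : Q) : Perm Q :=
  J * (L b)⁻¹ * (L a)⁻¹ * MM L J a b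

theorem NN_mem (h : AL G L J e) (a b : Q) : NN L J a b ∈ G := by
  have h1 : J * ((L b)⁻¹ * (L a)⁻¹ * (MM L J a b * J)) * J ∈ G :=
    h.JG _ (G.mul_mem (G.mul_mem (G.inv_mem (h.memL _)) (G.inv_mem (h.memL _))) (h.MM_mem a b))
  have h2 : J * ((L b)⁻¹ * (L a)⁻¹ * (MM L J a b * J)) * J = NN L J a b := by
    unfold NN
    calc J * ((L b)⁻¹ * (L a)⁻¹ * (MM L J a b * J)) * J
        = J * (L b)⁻¹ * (L a)⁻¹ * MM L J a b * (J * J) := by group
      _ = J * (L b)⁻¹ * (L a)⁻¹ * MM L J a b := by rw [h.JJ1, mul_one]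
  rwa [h2] at h1

theorem NN_e (h : AL G L J e) (hc : ∀ x, J * L (J x) * J = L x) (a b : Q) :
    NN L J a b e = e := by
  show J ((L b)⁻¹ ((L a)⁻¹ (MM L J a b e))) = e
  rw [h.MM_e hc, o2_ia, h.o2_inv_self, h.Je]

theorem NN_b (h : AL G L J e) (hc : ∀ x, J * L (J x) * J = L x) (a b : Q) :
    NN L J a b b = b := by
  obtain ⟨t, ht⟩ : ∃ t, t = (MM L J a b)⁻¹ * L a := ⟨_, rfl⟩
  have ht1 : t e = b := by
    rw [ht]
    show (MM L J a b)⁻¹ (L a e) = b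
    rw [h.Le, Perm.inv_eq_iff_eq, h.MM_left]
  have ht2 : t b = e := by
    rw [ht]
    show (MM L J a b)⁻¹ (L a b) = e
    rw [Perm.inv_eq_iff_eq, h.MM_e hc]
  have ht3 : t * J ∈ G := by
    have h1 : J * ((MM L J a b * J)⁻¹ * L a) * J ∈ G :=
      h.JG _ (G.mul_mem (G.inv_mem (h.MM_mem a b)) (h.memL a))
    have h2 : J * ((MM L J a b * J)⁻¹ * L a) * J = t * J := by
      rw [ht, mul_inv_rev, h.Jinv]
      calc J * (J * (MM L J a b)⁻¹ * L a) * J = (J * J) * (MM L J a b)⁻¹ * L a * J := by group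
        _ = _ := by rw [h.JJ1, one_mul]
    rwa [h2] at h1
  have h4 := h.MM_swap hc ht3 ht2 ht1
  rw [h.MM_be] at h4
  have h5 : NN L J a b = (L b * J)⁻¹ * t⁻¹ := by
    unfold NN
    rw [ht, mul_inv_rev, mul_inv_rev, inv_inv, h.Jinv]
    group
  have h6 : NN L J a b * (L b * J) = (L b * J) * NN L J a b := by
    have h7 : t⁻¹ * (L b * J) = (L b * J) * t⁻¹ := by
      calc t⁻¹ * (L b * J) = t⁻¹ * ((L b * J) * t) * t⁻¹ := by group
        _ = t⁻¹ * (t * (L b * J)) * t⁻¹ := by rw [h4]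
        _ = (L b * J) * t⁻¹ := by group
    rw [h5]
    calc (L b * J)⁻¹ * t⁻¹ * (L b * J) = (L b * J)⁻¹ * (t⁻¹ * (L b * J)) := by group
      _ = (L b * J)⁻¹ * ((L b * J) * t⁻¹) := by rw [h7]
      _ = (L b * J) * ((L b * J)⁻¹ * t⁻¹) := by group
  have h7 := congrArg (fun p : Perm Q => p e) h6
  simp only [Perm.mul_apply] at h7
  rw [h.Je, h.NN_e hc, h.Je, h.Le] at h7
  exact h7

/-- `θ(a,b) = L_a⁻¹L_b⁻¹L_aL_b` is an inner mapping -/
theorem k1_mem (h : AL G L J e) (hc : ∀ x, J * L (J x) * J = L x) (a b : Q) :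
    (L a)⁻¹ * (L b)⁻¹ * L a * L b ∈ G ∧ ((L a)⁻¹ * (L b)⁻¹ * L a * L b) e = e := by
  refine ⟨G.mul_mem (G.mul_mem (G.mul_mem (G.inv_mem (h.memL _)) (G.inv_mem (h.memL _)))
    (h.memL _)) (h.memL _), ?_⟩
  show (L a)⁻¹ ((L b)⁻¹ (L a (L b e))) = e
  rw [h.Le, h.o2_comm hc a b, o2_ia, h.o2_inv_self]

theorem theta_nn (h : AL G L J e) (hc : ∀ x, J * L (J x) * J = L x) (a b : Q) :
    (L a)⁻¹ * (L b)⁻¹ * L a * L b = NN L J b a * (NN L J a b)⁻¹ := by
  have h1 : J * (NN L J b a * (NN L J a b)⁻¹) * J = (L a)⁻¹ * (L b)⁻¹ * L a * L b := by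
    unfold NN
    rw [h.MM_symm hc b a, mul_inv_rev, mul_inv_rev, mul_inv_rev, h.Jinv, inv_inv, inv_inv]
    calc J * (J * (L a)⁻¹ * (L b)⁻¹ * MM L J a b * ((MM L J a b)⁻¹ * (L a * (L b * J)))) * J
        = (J * J) * (L a)⁻¹ * (L b)⁻¹ * L a * L b * (J * J) := by group
      _ = _ := by rw [h.JJ1, one_mul, mul_one]
  have hn : NN L J b a * (NN L J a b)⁻¹ ∈ G := G.mul_mem (h.NN_mem _ _) (G.inv_mem (h.NN_mem _ _))
  have hne : (NN L J b a * (NN L J a b)⁻¹) e = e := by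
    show NN L J b a ((NN L J a b)⁻¹ e) = e
    have : (NN L J a b)⁻¹ e = e := by
      rw [Perm.inv_eq_iff_eq, h.NN_e hc]
    rw [this, h.NN_e hc]
  have h2 := h.comJ _ hn hne
  rw [← h1]
  calc J * (NN L J b a * (NN L J a b)⁻¹) * J = (NN L J b a * (NN L J a b)⁻¹) * J * J := by rw [h2]
    _ = (NN L J b a * (NN L J a b)⁻¹) * (J * J) := by group
    _ = _ := by rw [h.JJ1, mul_one]

/-- **K1** (commutative case): `θ(a⁻¹,b) = θ(a,b)⁻¹` -/
theorem k1 (h : AL G L J e) (hc : ∀ x, J * L (J x) * J = L x) (a b : Q) :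
    (L (J a))⁻¹ * (L b)⁻¹ * L (J a) * L b = ((L a)⁻¹ * (L b)⁻¹ * L a * L b)⁻¹ := by
  have hJL := h.o2_JLJ hc
  have hJJ := h.JJ1
  obtain ⟨n1, hn1⟩ : ∃ n1, n1 = NN L J a b := ⟨_, rfl⟩
  obtain ⟨n2, hn2⟩ : ∃ n2, n2 = NN L J b a := ⟨_, rfl⟩
  obtain ⟨M, hM⟩ : ∃ M, M = MM L J a b := ⟨_, rfl⟩
  have hM1 : M = L a * L b * J * n1 := by
    rw [hn1, hM]
    unfold NN
    calc MM L J a b = L a * (L b * 1 * (L b)⁻¹) * (L a)⁻¹ * MM L J a b := by group
      _ = L a * (L b * (J * J) * (L b)⁻¹) * (L a)⁻¹ * MM L J a b := by rw [hJJ]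
      _ = _ := by group
  have hM2 : M = L b * L a * J * n2 := by
    rw [hn2, hM, h.MM_symm hc a b]
    unfold NN
    calc MM L J b a = L b * (L a * 1 * (L a)⁻¹) * (L b)⁻¹ * MM L J b a := by group
      _ = L b * (L a * (J * J) * (L a)⁻¹) * (L b)⁻¹ * MM L J b a := by rw [hJJ]
      _ = _ := by group
  have n1G : n1 ∈ G := hn1 ▸ h.NN_mem a b
  have n2G : n2 ∈ G := hn2 ▸ h.NN_mem b a
  have n1e : n1 e = e := hn1 ▸ h.NN_e hc a b
  have n2e : n2 e = e := hn2 ▸ h.NN_e hc b a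
  have n1b : n1 b = b := hn1 ▸ h.NN_b hc a b
  have n2a : n2 a = a := hn2 ▸ h.NN_b hc b a
  have n1J := h.comJ n1 n1G n1e
  have n2J := h.comJ n2 n2G n2e
  have n1Jb : n1 (J b) = J b := by
    have := congrArg (fun p : Perm Q => p b) n1J
    simp only [Perm.mul_apply] at this
    rw [this, n1b]
  have cn1 := h.comL n1G n1e n1Jb
  have cn2 := h.comL n2G n2e n2a
  obtain ⟨g, hg⟩ : ∃ g, g = J * (L a)⁻¹ * L (J b) := ⟨_, rfl⟩
  have hgG : g * J ∈ G := by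
    have h1 : J * ((L a)⁻¹ * L (J b)) * J ∈ G :=
      h.JG _ (G.mul_mem (G.inv_mem (h.memL _)) (h.memL _))
    rw [hg]
    have : J * (L a)⁻¹ * L (J b) * J = J * ((L a)⁻¹ * L (J b)) * J := by group
    rwa [this]
  have hga : g a = b := by
    rw [hg]
    show J ((L a)⁻¹ (L (J b) a)) = b
    rw [h.o2_comm hc (J b) a, o2_ia, h.JJ]
  have hgb : g b = a := by
    rw [hg]
    show J ((L a)⁻¹ (L (J b) b)) = a
    rw [h.LJ', h.o2_inv_e, h.JJ]
  have hgM := h.MM_swap hc hgG hga hgb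
  rw [← hM] at hgM
  have e1 : M * g = L b * n2 * L (J b) := by
    calc M * g = L b * L a * (J * n2) * J * (L a)⁻¹ * L (J b) := by
          rw [hg]; nth_rewrite 1 [hM2]; group
      _ = L b * L a * (n2 * J) * J * (L a)⁻¹ * L (J b) := by rw [n2J]
      _ = L b * (L a * n2) * (J * J) * (L a)⁻¹ * L (J b) := by group
      _ = L b * (n2 * L a) * (J * J) * (L a)⁻¹ * L (J b) := by rw [cn2]
      _ = L b * (n2 * L a) * 1 * (L a)⁻¹ * L (J b) := by rw [hJJ]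
      _ = _ := by group
  have e2 : g * M = (L (J a))⁻¹ * L b * L (J a) * n1 * L (J b) := by
    have hJa : (L (J a))⁻¹ = J * (L a)⁻¹ * J := by
      rw [← hJL a, h.Jmulinv]
    have hJb : L b = J * L (J b) * J := (hc b).symm
    calc g * M = J * (L a)⁻¹ * L (J b) * L a * L b * J * n1 := by
          rw [hg]; nth_rewrite 1 [hM1]; group
      _ = J * (L a)⁻¹ * 1 * L (J b) * 1 * L a * 1 * L b * J * n1 := by group
      _ = J * (L a)⁻¹ * (J * J) * L (J b) * (J * J) * L a * (J * J) * L b * J * n1 := by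
          rw [hJJ]
      _ = (J * (L a)⁻¹ * J) * (J * L (J b) * J) * (J * L a * J) * (J * L b * J) * n1 := by group
      _ = (L (J a))⁻¹ * L b * L (J a) * L (J b) * n1 := by rw [← hJa, ← hJb, hJL a, hJL b]
      _ = (L (J a))⁻¹ * L b * L (J a) * (L (J b) * n1) := by group
      _ = (L (J a))⁻¹ * L b * L (J a) * (n1 * L (J b)) := by rw [cn1]
      _ = _ := by group
  rw [e1, e2] at hgM
  have e3 : (L (J a))⁻¹ * L b * L (J a) * n1 = L b * n2 := mul_right_cancel hgM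
  have e4 : (L b)⁻¹ * (L (J a))⁻¹ * L b * L (J a) = n2 * n1⁻¹ := by
    calc (L b)⁻¹ * (L (J a))⁻¹ * L b * L (J a)
        = (L b)⁻¹ * ((L (J a))⁻¹ * L b * L (J a) * n1) * n1⁻¹ := by group
      _ = (L b)⁻¹ * (L b * n2) * n1⁻¹ := by rw [e3]
      _ = _ := by group
  rw [h.theta_nn hc a b, ← hn1, ← hn2, ← e4]
  group

end AL

end ALoop
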